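import Pool.Agent.H22.LPP.TargetsB

/-!
# Leftmost geodesics: dependence on the weights, measurability and translations (module LAMM)
-/

set_option autoImplicit false

open MeasureTheory ProbabilityTheory
open Pool.Agent.H99.NS Pool.Agent.H22.LPP

namespace Pool.Agent.H34.LPP

theorem geod_of_congr {ω ω' : Env} {o e : Site} (h : ∀ x ∈ dom o e, ω x = ω' x) {γ : ℤ → ℤ}
    (hg : Geod ω o e γ) : Geod ω' o e γ := by
  obtain ⟨hγ, hw⟩ := hg
  refine ⟨hγ, ?_⟩
  rw [← T_congr h, ← hw]
  symm
  apply wt_congr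
  intro r hr1 hr2
  exact h _ ⟨hr1, (hγ.left hr2).reach hr1.le, (hγ.right hr1.le).reach hr2⟩

theorem lam_depOn (o e : Site) (r : ℤ) : DepOn (dom o e) (fun ω => Lam ω o e r) := by
  intro ω ω' h
  have h' : ∀ x ∈ dom o e, ω' x = ω x := fun x hx => (h x hx).symm
  simp only [Lam]
  congr 1
  ext y
  constructor
  · rintro ⟨γ, h1, h2⟩
    exact ⟨γ, geod_of_congr h h1, h2⟩
  · rintro ⟨γ, h1, h2⟩
    exact ⟨γ, geod_of_congr h' h1, h2⟩

theorem measurable_of_depOn {β : Type*} [MeasurableSpace β] {A : Set Site} (hA : A.Finite)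
    {F : Env → β} (h : DepOn A F) : Measurable F := by
  classical
  have : Finite A := hA
  let G : (A → ℕ) → β := fun w => F (fun x => if hx : x ∈ A then w ⟨x, hx⟩ else 0)
  have hG : Measurable G := measurable_of_countable G
  have hr : Measurable (fun (ω : Env) (x : A) => ω x) :=
    measurable_pi_lambda _ fun x => measurable_pi_apply _
  have hF : F = G ∘ (fun (ω : Env) (x : A) => ω x) := by
    funext ω
    apply h
    intro x hx
    simp only [dif_pos hx]
  rw [hF]
  exact hG.comp hr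

theorem geod_shift {ω : Env} {a o e : Site} {γ : ℤ → ℤ} (h : Geod (shiftE a ω) o e γ) :
    Geod ω (o + a) (e + a) (fun r => γ (r - a.1) + a.2) := by
  obtain ⟨h1, h2⟩ := h
  refine ⟨conn_shift a h1, ?_⟩
  rw [← T_shift, ← h2, wt_shift]
  rfl

theorem shift_shift (a : Site) (ω : Env) : shiftE (-a) (shiftE a ω) = ω := by
  funext x
  unfold shiftE
  rw [neg_add_cancel_right]

theorem lam_shift (o e : Site) (r : ℤ) (a : Site) (ω : Env) (hr : Reach o e) :
    Lam (shiftE a ω) o e r + a.2 = Lam ω (o + a) (e + a) (r + a.1) := by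
  have hoe := reach_le hr
  set S : Set ℤ := {y : ℤ | ∃ γ, Geod (shiftE a ω) o e γ ∧ γ (max o.1 (min r e.1)) = y} with hS
  have hne : S.Nonempty := by
    obtain ⟨γ, h1, h2, _⟩ := T_attained (shiftE a ω) hr
    exact ⟨_, γ, ⟨h1, h2.symm⟩, rfl⟩
  have hbd : BddBelow S := by
    refine ⟨o.2 - (e.1 - o.1), ?_⟩
    rintro y ⟨γ, ⟨h1, _⟩, rfl⟩
    have h3 := (path_lip h1.1 le_rfl (b := max o.1 (min r e.1)) (by omega) (by omega)).1
    rw [h1.2.1, abs_le] at h3
    have h4 : max o.1 (min r e.1) ≤ e.1 := by omega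
    omega
  have h1 : Lam ω (o + a) (e + a) (r + a.1) = sInf ((OrderIso.addRight a.2) '' S) := by
    unfold Lam
    congr 1
    ext y
    constructor
    · rintro ⟨γ, h1, h2⟩
      have h3 := h1
      rw [← shift_shift a ω] at h3
      have h4 := geod_shift h3
      rw [add_neg_cancel_right, add_neg_cancel_right] at h4
      refine ⟨_, ⟨_, h4, rfl⟩, ?_⟩
      simp only [OrderIso.addRight_apply, Prod.fst_neg, Prod.snd_neg, sub_neg_eq_add]
      rw [← h2]
      have h5 : max o.1 (min r e.1) + a.1 = max (o + a).1 (min (r + a.1) (e + a).1) := by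
        simp only [Prod.fst_add]
        omega
      rw [h5]
      ring
    · rintro ⟨x, ⟨γ, h1, h2⟩, rfl⟩
      refine ⟨_, geod_shift h1, ?_⟩
      have h5 : max (o + a).1 (min (r + a.1) (e + a).1) - a.1 = max o.1 (min r e.1) := by
        simp only [Prod.fst_add]
        omega
      simp only [OrderIso.addRight_apply]
      rw [h5, h2]
  rw [h1, ← OrderIso.map_csInf' _ hne hbd]
  rfl

theorem m_lamm : B_LAMM := fun o e r =>
  ⟨lam_depOn o e r, measurable_of_depOn (dom_finite o e) (lam_depOn o e r),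
    fun a ω hr => lam_shift o e r a ω hr⟩

end Pool.Agent.H34.LPP
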